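import Mathlib
import Pool.Agent.H.MP_4236ce_al.A

set_option autoImplicit false

namespace Pool.Agent.Results.MP_4236ce_al.No

open Pool.Agent.H.MP_4236ce_al

/-- Minimal number of generators of a group (`⊤` if it is not finitely generated). -/
noncomputable def mg (H : Type) [Group H] : ℕ∞ :=
  ⨅ (S : Finset H) (_ : Subgroup.closure (S : Set H) = ⊤), (S.card : ℕ∞)

/-- `δ(A)`: minimal number of generators of `A/[A,A]`. -/
noncomputable def delta (A : Type) [Group A] : ℕ∞ := mg (Abelianization A)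

/-- `d_p(A)`: minimal number of generators of `A/[A,A]A^p`. -/
noncomputable def dp (p : ℕ) (A : Type) [Group A] : ℕ∞ :=
  mg (A ⧸ Subgroup.normalClosure (commutatorSet A ∪ Set.range fun x : A => x ^ p))

/-- The lower normal limit of `f` along the finite-index normal subgroups. -/
noncomputable def NL (Γ : Type) [Group Γ] (f : Subgroup Γ → ℕ∞) : ℕ∞ :=
  ⨆ (M : Subgroup Γ) (_ : M.Normal ∧ M.FiniteIndex),
    ⨅ (N : Subgroup Γ) (_ : N.Normal ∧ N.FiniteIndex ∧ N ≤ M), f N

theorem mg_zero (H : Type) [Group H] : mg H = 0 ↔ ∀ x : H, x = 1 := by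
  refine ⟨fun h x => ?_, fun h => le_bot_iff.1 (iInf₂_le_of_le ∅
    (eq_top_iff.2 fun x _ => h x ▸ Subgroup.one_mem _) (by simp))⟩
  by_contra hx
  refine absurd h (ne_of_gt (lt_of_lt_of_le zero_lt_one (le_iInf₂ fun S hS => ?_)))
  rcases S.eq_empty_or_nonempty with rfl | hn
  · have : x ∈ Subgroup.closure ((∅ : Finset H) : Set H) := hS ▸ Subgroup.mem_top x
    exact absurd (by simpa using this) hx
  · exact_mod_cast hn.card_pos

theorem big {N : Subgroup G} (hN : N.Normal) (h : N ≠ ⊥) : N.FiniteIndex ∧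
    ∃ u, ∀ k ∈ K, atw u k ∈ N.map G.subtype := by
  obtain ⟨g, hg⟩ := Subgroup.ne_bot_iff_exists_ne_one.1 h
  obtain ⟨n, hn⟩ := ji (N := N.map G.subtype) (by
    rintro a ha _ ⟨b, hb, rfl⟩
    exact ⟨_, hN.conj_mem b hb ⟨a, ha⟩, rfl⟩) g.1.2 ⟨g.1, g.2, rfl⟩
    fun e => hg (Subtype.ext (Subtype.ext e))
  refine ⟨?_, List.replicate n 0, hn _ (by simp)⟩
  obtain ⟨T, hT, e⟩ := FI_lvl n _ hn
  choose t ht hm using fun c : G ⧸ N => e _ c.out.2
  have := hT.to_subtype
  have : Finite (G ⧸ N) := Finite.of_injective (fun c => (⟨t c, ht c⟩ : T)) fun c d h => by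
    obtain ⟨a, ha, e1⟩ := hm c
    obtain ⟨b, hb, e2⟩ := hm d
    rw [← c.out_eq, ← d.out_eq, QuotientGroup.eq]
    convert N.mul_mem (N.inv_mem ha) hb using 1
    refine Subtype.ext ?_
    change _ = (G.subtype a)⁻¹ * G.subtype b
    rw [e1, e2, Subtype.mk.inj h]; simp
  exact Subgroup.finiteIndex_of_finite_quotient

theorem result : ∃ (Γ : Type) (_ : Group Γ), Group.FG Γ ∧
    (∀ p : ℕ, p.Prime → NL Γ (fun N => dp p N) = 0) ∧ 1 ≤ NL Γ (fun N => delta N) ∧
    NL Γ (fun N => delta N) ≠ ⨆ (p : ℕ) (_ : p.Prime), NL Γ (fun N => dp p N) := by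
  have := G_inf
  have nb : ∀ M : Subgroup G, M.FiniteIndex → M ≠ ⊥ := fun M h e => h.1 (by simp [e])
  have h1 : ∀ p : ℕ, p.Prime → NL G (fun N => dp p N) = 0 := by
    intro p hp
    refine le_bot_iff.1 (iSup₂_le fun M ⟨m1, m2⟩ => ?_)
    obtain ⟨q, hq, k, hk, k1, k2⟩ : ∃ q, p.Coprime q ∧ ∃ k ∈ K, k ≠ 1 ∧ k ^ q = 1 := by
      by_cases h : p = 2
      · obtain ⟨k, a, b, c, -⟩ := k7
        exact ⟨7, by rw [h]; norm_num, k, a, b, c⟩
      · exact ⟨2, (Nat.coprime_primes hp Nat.prime_two).2 h, k2⟩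
    obtain ⟨u, hu⟩ := (big m1 (nb M m2)).2
    obtain ⟨g, hg, e⟩ := hu k hk
    have g1 : g ≠ 1 := fun h => k1 (atw_inj u (by rw [← e, h, map_one, map_one]))
    have g2 : g ^ q = 1 := G.subtype_injective (by rw [map_pow, e, ← map_pow, k2, map_one, map_one])
    have hN : Subgroup.normalClosure {g} ≠ ⊥ := fun h =>
      g1 (Subgroup.mem_bot.1 (h ▸ Subgroup.subset_normalClosure rfl))
    refine iInf₂_le_of_le (Subgroup.normalClosure {g}) ⟨inferInstance, (big inferInstance hN).1,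
      Subgroup.normalClosure_le_normal (Set.singleton_subset_iff.2 hg)⟩
      ((mg_zero _).2 fun x => ?_).le
    obtain ⟨⟨x, hx⟩, rfl⟩ := QuotientGroup.mk_surjective x
    rw [QuotientGroup.eq_one_iff]
    induction hx using Subgroup.closure_induction with
    | mem x hx =>
      obtain ⟨_, rfl, c, hc⟩ := Group.mem_conjugatesOfSet_iff.1 hx
      have x2 : x ^ q = 1 := by
        have := (hc.pow_right q).eq
        rwa [g2, mul_one, eq_comm, mul_eq_right] at this
      obtain ⟨j, hj⟩ := exists_pow_eq_self_of_coprime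
        (hq.coprime_dvd_right (orderOf_dvd_of_pow_eq_one x2))
      refine Subgroup.subset_normalClosure (Or.inr ⟨⟨x, Subgroup.subset_closure hx⟩ ^ j,
        Subtype.ext ?_⟩)
      change (x ^ j) ^ p = x
      rw [← pow_mul, mul_comm, pow_mul, hj]
    | one => exact Subgroup.one_mem _
    | mul x y _ _ hx hy => exact Subgroup.mul_mem _ hx hy
    | inv x _ hx => exact Subgroup.inv_mem _ hx
  have h2 : 1 ≤ NL G (fun N => delta N) := by
    refine le_iSup₂_of_le ⊤ ⟨inferInstance, inferInstance⟩ (le_iInf₂ fun N ⟨_, n2, _⟩ => ?_)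
    refine Order.one_le_iff_ne_zero.2 fun h => nb N n2 ?_
    rw [← Subgroup.map_eq_bot_iff_of_injective _ G.subtype_injective]
    refine not_perfect (Subgroup.map_subtype_le N) ?_
    rw [← Subgroup.map_commutator, ← Subgroup.map_subtype_commutator]
    exact Subgroup.map_mono fun x hx =>
      ⟨⟨x, hx⟩, (QuotientGroup.eq_one_iff _).1 ((mg_zero _).1 h _), rfl⟩
  refine ⟨G, inferInstance, G_fg, h1, h2, fun e => ?_⟩
  rw [e] at h2
  simp +contextual [h1] at h2

end Pool.Agent.Results.MP_4236ce_al.No
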